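import Pool.Agent.Helper2_CN3.Stmts2

/-!
Squad CN3, module Q_EX: the 13 lattices exist
-/

noncomputable section

namespace Pool.Agent.CN3.H63

open Pool.Agent.H25Cong Pool.Agent.CON Pool.Agent.CN2

/-- the certificate: D G = W diag(-d_0, d_1, ...) Wᵗ, G K = ex -/
def exc (m : ℕ) (G W K : List (List ℤ)) (d : List ℤ) (D ex : ℤ) : Bool :=
  decide (∀ i < m, ∀ j < m, (∑ k ∈ Finset.range m, ent W i k * ent W j k * d.getD k 0) -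
    2 * (ent W i 0 * ent W j 0 * d.getD 0 0) = D * ent G i j) &&
  decide (∀ i < m, ∀ j < m, ∑ k ∈ Finset.range m, ent G i k * ent K k j =
    if i = j then ex else 0) && decide (∀ k < m, 0 < d.getD k 0) && decide (0 < D) &&
  decide (ex ≠ 0)

lemma ex_basis {n : ℕ} {G : List (List ℤ)} (W K : List (List ℤ)) (d : List ℤ) (D ex : ℤ)
    (h : exc (n + 1) G W K d D ex = true) :
    ∃ a : Module.Basis (Fin (n + 1)) ℝ (V n), ∀ i j, B (a i) (a j) = ent G i j := by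
  simp only [exc, Bool.and_eq_true, decide_eq_true_eq] at h
  obtain ⟨⟨⟨⟨h1, h2⟩, h3⟩, hD⟩, hex⟩ := h
  have hD' : (0 : ℝ) < D := by exact_mod_cast hD
  have hd' : ∀ k : Fin (n + 1), (0 : ℝ) ≤ (d.getD k 0 : ℝ) / D := fun k =>
    div_nonneg (by exact_mod_cast (h3 k k.2).le) hD'.le
  set v : Fin (n + 1) → V n := fun i k =>
    (ent W i k : ℝ) * Real.sqrt ((d.getD k 0 : ℝ) / D) with hv
  have hB : ∀ i j, B (v i) (v j) = ent G i j := by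
    intro i j
    have e1 := congrArg (fun z : ℤ => (z : ℝ)) (h1 i i.2 j j.2)
    have e2 : ∀ k : Fin (n + 1), v i k * v j k =
        ((ent W i k : ℝ) * ent W j k * (d.getD k 0 : ℝ)) / D := by
      intro k
      simp only [hv]
      have e3 := Real.mul_self_sqrt (hd' k)
      calc _ = (ent W i k : ℝ) * ent W j k * (Real.sqrt ((d.getD k 0 : ℝ) / D) *
            Real.sqrt ((d.getD k 0 : ℝ) / D)) := by ring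
        _ = _ := by rw [e3]; ring
    rw [Pool.Agent.H25Cong.B]
    rw [Finset.sum_congr rfl fun k _ => e2 k, e2 0]
    push_cast at e1
    rw [← Fin.sum_univ_eq_sum_range (fun k => (ent W i k : ℝ) * ent W j k * (d.getD k 0 : ℝ))]
      at e1
    rw [← Finset.sum_div, Fin.val_zero]
    field_simp
    linarith
  have hli : LinearIndependent ℝ v := by
    rw [Fintype.linearIndependent_iff]
    intro g hg i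
    have e1 : ∀ j : Fin (n + 1), ∑ l, g l * (ent G l j : ℝ) = 0 := by
      intro j
      have e2 : B (∑ l, g l • v l) (v j) = 0 := by
        rw [hg]; simp [Pool.Agent.H25Cong.B]
      rw [B_sum_left] at e2
      rw [← e2]
      exact Finset.sum_congr rfl fun l _ => by rw [B_smul_left, hB]
    have e3 : ∑ j : Fin (n + 1), (∑ l, g l * (ent G l j : ℝ)) * (ent K j i : ℝ) = 0 :=
      Finset.sum_eq_zero fun j _ => by rw [e1 j, zero_mul]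
    have e4 : ∑ j : Fin (n + 1), (∑ l, g l * (ent G l j : ℝ)) * (ent K j i : ℝ) =
        ∑ l, g l * (if l = i then (ex : ℝ) else 0) := by
      simp only [Finset.sum_mul]
      rw [Finset.sum_comm]
      apply Finset.sum_congr rfl
      intro l _
      have e5 := congrArg (fun z : ℤ => (z : ℝ)) (h2 l l.2 i i.2)
      push_cast at e5
      rw [← Fin.sum_univ_eq_sum_range (fun k => (ent G l k : ℝ) * ent K k i)] at e5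
      simp only [Fin.ext_iff]
      rw [← e5, Finset.mul_sum]
      exact Finset.sum_congr rfl fun j _ => by ring
    rw [e4] at e3
    simp only [mul_ite, mul_zero, Finset.sum_ite_eq', Finset.mem_univ, if_true] at e3
    have hex' : (ex : ℝ) ≠ 0 := by exact_mod_cast hex
    exact (mul_eq_zero.mp e3).resolve_right hex'
  refine ⟨basisOfLinearIndependentOfCardEqFinrank hli (by simp), fun i j => ?_⟩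
  rw [coe_basisOfLinearIndependentOfCardEqFinrank]
  exact hB i j

/-- the matrix W for the lattice number 0 -/
def eW0 : List (List ℤ) :=
    [[1, 1, 0, 0, 0, 0, 0, 0, 0, 0, 0, 0, 0, 0], [1, -1, 0, 0, 0, 0, 0, 0, 0, 0, 0, 0, 0, 0],
    [0, 0, 2, 0, 0, 0, 0, 0, 0, 0, 0, 0, 0, 0], [0, 0, -1, 3, 0, 0, 0, 0, 0, 0, 0, 0, 0, 0],
    [0, 0, 0, -2, 4, 0, 0, 0, 0, 0, 0, 0, 0, 0], [0, 0, 0, 0, -3, 5, 0, 0, 0, 0, 0, 0, 0, 0],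
    [0, 0, 0, 0, 0, -4, 6, 0, 0, 0, 0, 0, 0, 0], [0, 0, 0, 0, 0, 0, -5, 7, 0, 0, 0, 0, 0, 0],
    [0, 0, 0, 0, 0, 0, -5, -5, 4, 0, 0, 0, 0, 0], [0, 0, 0, 0, 0, 0, 0, 0, -7, 1, 0, 0, 0, 0],
    [0, 0, 0, 0, 0, 0, 0, 0, 0, 0, 2, 0, 0, 0], [0, 0, 0, 0, 0, 0, 0, 0, 0, 0, -1, 3, 0, 0],
    [0, 0, 0, 0, 0, 0, 0, 0, 0, 0, 0, -2, 2, 0], [0, 0, 0, 0, 0, 0, 0, 0, 0, 0, 0, -2, -1, 1]]

/-- the matrix K for the lattice number 0 -/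
def eK0 : List (List ℤ) :=
    [[0, -2, 0, 0, 0, 0, 0, 0, 0, 0, 0, 0, 0, 0], [-2, 0, 0, 0, 0, 0, 0, 0, 0, 0, 0, 0, 0, 0],
    [0, 0, 4, 6, 8, 10, 12, 6, 8, 4, 0, 0, 0, 0],
    [0, 0, 6, 12, 16, 20, 24, 12, 16, 8, 0, 0, 0, 0],
    [0, 0, 8, 16, 24, 30, 36, 18, 24, 12, 0, 0, 0, 0],
    [0, 0, 10, 20, 30, 40, 48, 24, 32, 16, 0, 0, 0, 0],
    [0, 0, 12, 24, 36, 48, 60, 30, 40, 20, 0, 0, 0, 0],
    [0, 0, 6, 12, 18, 24, 30, 16, 20, 10, 0, 0, 0, 0],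
    [0, 0, 8, 16, 24, 32, 40, 20, 28, 14, 0, 0, 0, 0],
    [0, 0, 4, 8, 12, 16, 20, 10, 14, 8, 0, 0, 0, 0],
    [0, 0, 0, 0, 0, 0, 0, 0, 0, 0, 2, 2, 1, 1], [0, 0, 0, 0, 0, 0, 0, 0, 0, 0, 2, 4, 2, 2],
    [0, 0, 0, 0, 0, 0, 0, 0, 0, 0, 1, 2, 2, 1], [0, 0, 0, 0, 0, 0, 0, 0, 0, 0, 1, 2, 1, 2]]

/-- the scalars d for the lattice number 0 -/
def ed0 : List ℤ := [210, 210, 210, 70, 35, 21, 14, 10, 15, 105, 210, 70, 140, 420]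

/-- the matrix W for the lattice number 1 -/
def eW1 : List (List ℤ) :=
    [[1, 1, 0, 0, 0, 0, 0, 0, 0, 0, 0, 0, 0], [1, -1, 0, 0, 0, 0, 0, 0, 0, 0, 0, 0, 0],
    [0, 0, 2, 0, 0, 0, 0, 0, 0, 0, 0, 0, 0], [0, 0, -1, 3, 0, 0, 0, 0, 0, 0, 0, 0, 0],
    [0, 0, 0, -2, 4, 0, 0, 0, 0, 0, 0, 0, 0], [0, 0, 0, 0, -3, 5, 0, 0, 0, 0, 0, 0, 0],
    [0, 0, 0, 0, 0, -4, 6, 0, 0, 0, 0, 0, 0], [0, 0, 0, 0, 0, 0, -5, 7, 0, 0, 0, 0, 0],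
    [0, 0, 0, 0, 0, 0, -5, -5, 4, 0, 0, 0, 0], [0, 0, 0, 0, 0, 0, 0, 0, -7, 1, 0, 0, 0],
    [0, 0, 0, 0, 0, 0, 0, 0, 0, 0, 2, 0, 0], [0, 0, 0, 0, 0, 0, 0, 0, 0, 0, -1, 3, 0],
    [0, 0, 0, 0, 0, 0, 0, 0, 0, 0, 0, -2, 1]]

/-- the matrix K for the lattice number 1 -/
def eK1 : List (List ℤ) :=
    [[0, -4, 0, 0, 0, 0, 0, 0, 0, 0, 0, 0, 0], [-4, 0, 0, 0, 0, 0, 0, 0, 0, 0, 0, 0, 0],
    [0, 0, 8, 12, 16, 20, 24, 12, 16, 8, 0, 0, 0],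
    [0, 0, 12, 24, 32, 40, 48, 24, 32, 16, 0, 0, 0],
    [0, 0, 16, 32, 48, 60, 72, 36, 48, 24, 0, 0, 0],
    [0, 0, 20, 40, 60, 80, 96, 48, 64, 32, 0, 0, 0],
    [0, 0, 24, 48, 72, 96, 120, 60, 80, 40, 0, 0, 0],
    [0, 0, 12, 24, 36, 48, 60, 32, 40, 20, 0, 0, 0],
    [0, 0, 16, 32, 48, 64, 80, 40, 56, 28, 0, 0, 0],
    [0, 0, 8, 16, 24, 32, 40, 20, 28, 16, 0, 0, 0], [0, 0, 0, 0, 0, 0, 0, 0, 0, 0, 3, 2, 1],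
    [0, 0, 0, 0, 0, 0, 0, 0, 0, 0, 2, 4, 2], [0, 0, 0, 0, 0, 0, 0, 0, 0, 0, 1, 2, 3]]

/-- the scalars d for the lattice number 1 -/
def ed1 : List ℤ := [210, 210, 210, 70, 35, 21, 14, 10, 15, 105, 210, 70, 560]

/-- the matrix W for the lattice number 2 -/
def eW2 : List (List ℤ) :=
    [[1, 1, 0, 0, 0, 0, 0, 0, 0, 0, 0, 0, 0], [1, -1, 0, 0, 0, 0, 0, 0, 0, 0, 0, 0, 0],
    [0, 0, 2, 0, 0, 0, 0, 0, 0, 0, 0, 0, 0], [0, 0, -1, 3, 0, 0, 0, 0, 0, 0, 0, 0, 0],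
    [0, 0, 0, -2, 4, 0, 0, 0, 0, 0, 0, 0, 0], [0, 0, 0, 0, -3, 5, 0, 0, 0, 0, 0, 0, 0],
    [0, 0, 0, 0, 0, -4, 6, 0, 0, 0, 0, 0, 0], [0, 0, 0, 0, 0, 0, -5, 7, 0, 0, 0, 0, 0],
    [0, 0, 0, 0, 0, 0, -5, -5, 4, 0, 0, 0, 0], [0, 0, 0, 0, 0, 0, 0, 0, -7, 1, 0, 0, 0],
    [0, 0, 0, 0, 0, 0, 0, 0, 0, 0, 1, 0, 0], [0, 0, 0, 0, 0, 0, 0, 0, 0, 0, 0, 1, 0],
    [0, 0, 0, 0, 0, 0, 0, 0, 0, 0, 0, 0, 1]]

/-- the matrix K for the lattice number 2 -/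
def eK2 : List (List ℤ) :=
    [[0, -2, 0, 0, 0, 0, 0, 0, 0, 0, 0, 0, 0], [-2, 0, 0, 0, 0, 0, 0, 0, 0, 0, 0, 0, 0],
    [0, 0, 4, 6, 8, 10, 12, 6, 8, 4, 0, 0, 0], [0, 0, 6, 12, 16, 20, 24, 12, 16, 8, 0, 0, 0],
    [0, 0, 8, 16, 24, 30, 36, 18, 24, 12, 0, 0, 0],
    [0, 0, 10, 20, 30, 40, 48, 24, 32, 16, 0, 0, 0],
    [0, 0, 12, 24, 36, 48, 60, 30, 40, 20, 0, 0, 0],
    [0, 0, 6, 12, 18, 24, 30, 16, 20, 10, 0, 0, 0],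
    [0, 0, 8, 16, 24, 32, 40, 20, 28, 14, 0, 0, 0],
    [0, 0, 4, 8, 12, 16, 20, 10, 14, 8, 0, 0, 0], [0, 0, 0, 0, 0, 0, 0, 0, 0, 0, 1, 0, 0],
    [0, 0, 0, 0, 0, 0, 0, 0, 0, 0, 0, 1, 0], [0, 0, 0, 0, 0, 0, 0, 0, 0, 0, 0, 0, 1]]

/-- the scalars d for the lattice number 2 -/
def ed2 : List ℤ := [210, 210, 210, 70, 35, 21, 14, 10, 15, 105, 840, 840, 840]

/-- the matrix W for the lattice number 3 -/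
def eW3 : List (List ℤ) :=
    [[1, 1, 0, 0, 0, 0, 0, 0, 0, 0, 0, 0], [1, -1, 0, 0, 0, 0, 0, 0, 0, 0, 0, 0],
    [0, 0, 2, 0, 0, 0, 0, 0, 0, 0, 0, 0], [0, 0, -1, 3, 0, 0, 0, 0, 0, 0, 0, 0],
    [0, 0, 0, -2, 4, 0, 0, 0, 0, 0, 0, 0], [0, 0, 0, 0, -3, 5, 0, 0, 0, 0, 0, 0],
    [0, 0, 0, 0, 0, -4, 6, 0, 0, 0, 0, 0], [0, 0, 0, 0, 0, 0, -5, 7, 0, 0, 0, 0],
    [0, 0, 0, 0, 0, 0, -5, -5, 4, 0, 0, 0], [0, 0, 0, 0, 0, 0, 0, 0, -7, 1, 0, 0],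
    [0, 0, 0, 0, 0, 0, 0, 0, 0, 0, 2, 0], [0, 0, 0, 0, 0, 0, 0, 0, 0, 0, -1, 1]]

/-- the matrix K for the lattice number 3 -/
def eK3 : List (List ℤ) :=
    [[0, -3, 0, 0, 0, 0, 0, 0, 0, 0, 0, 0], [-3, 0, 0, 0, 0, 0, 0, 0, 0, 0, 0, 0],
    [0, 0, 6, 9, 12, 15, 18, 9, 12, 6, 0, 0], [0, 0, 9, 18, 24, 30, 36, 18, 24, 12, 0, 0],
    [0, 0, 12, 24, 36, 45, 54, 27, 36, 18, 0, 0],
    [0, 0, 15, 30, 45, 60, 72, 36, 48, 24, 0, 0],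
    [0, 0, 18, 36, 54, 72, 90, 45, 60, 30, 0, 0], [0, 0, 9, 18, 27, 36, 45, 24, 30, 15, 0, 0],
    [0, 0, 12, 24, 36, 48, 60, 30, 42, 21, 0, 0], [0, 0, 6, 12, 18, 24, 30, 15, 21, 12, 0, 0],
    [0, 0, 0, 0, 0, 0, 0, 0, 0, 0, 2, 1], [0, 0, 0, 0, 0, 0, 0, 0, 0, 0, 1, 2]]

/-- the scalars d for the lattice number 3 -/
def ed3 : List ℤ := [210, 210, 210, 70, 35, 21, 14, 10, 15, 105, 210, 630]

/-- the matrix W for the lattice number 4 -/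
def eW4 : List (List ℤ) :=
    [[1, 1, 0, 0, 0, 0, 0, 0, 0, 0, 0, 0], [1, -1, 0, 0, 0, 0, 0, 0, 0, 0, 0, 0],
    [0, 0, 2, 0, 0, 0, 0, 0, 0, 0, 0, 0], [0, 0, -1, 3, 0, 0, 0, 0, 0, 0, 0, 0],
    [0, 0, 0, -2, 4, 0, 0, 0, 0, 0, 0, 0], [0, 0, 0, 0, -3, 5, 0, 0, 0, 0, 0, 0],
    [0, 0, 0, 0, 0, -4, 6, 0, 0, 0, 0, 0], [0, 0, 0, 0, 0, 0, -5, 7, 0, 0, 0, 0],
    [0, 0, 0, 0, 0, 0, -5, -5, 4, 0, 0, 0], [0, 0, 0, 0, 0, 0, 0, 0, -7, 1, 0, 0],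
    [0, 0, 0, 0, 0, 0, 0, 0, 0, 0, 1, 0], [0, 0, 0, 0, 0, 0, 0, 0, 0, 0, 0, 1]]

/-- the matrix K for the lattice number 4 -/
def eK4 : List (List ℤ) :=
    [[0, -2, 0, 0, 0, 0, 0, 0, 0, 0, 0, 0], [-2, 0, 0, 0, 0, 0, 0, 0, 0, 0, 0, 0],
    [0, 0, 4, 6, 8, 10, 12, 6, 8, 4, 0, 0], [0, 0, 6, 12, 16, 20, 24, 12, 16, 8, 0, 0],
    [0, 0, 8, 16, 24, 30, 36, 18, 24, 12, 0, 0], [0, 0, 10, 20, 30, 40, 48, 24, 32, 16, 0, 0],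
    [0, 0, 12, 24, 36, 48, 60, 30, 40, 20, 0, 0], [0, 0, 6, 12, 18, 24, 30, 16, 20, 10, 0, 0],
    [0, 0, 8, 16, 24, 32, 40, 20, 28, 14, 0, 0], [0, 0, 4, 8, 12, 16, 20, 10, 14, 8, 0, 0],
    [0, 0, 0, 0, 0, 0, 0, 0, 0, 0, 1, 0], [0, 0, 0, 0, 0, 0, 0, 0, 0, 0, 0, 1]]

/-- the scalars d for the lattice number 4 -/
def ed4 : List ℤ := [210, 210, 210, 70, 35, 21, 14, 10, 15, 105, 840, 840]

/-- the matrix W for the lattice number 5 -/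
def eW5 : List (List ℤ) :=
    [[1, 1, 0, 0, 0, 0, 0, 0, 0, 0, 0, 0], [1, -1, 0, 0, 0, 0, 0, 0, 0, 0, 0, 0],
    [0, 0, 2, 0, 0, 0, 0, 0, 0, 0, 0, 0], [0, 0, -1, 3, 0, 0, 0, 0, 0, 0, 0, 0],
    [0, 0, 0, -2, 4, 0, 0, 0, 0, 0, 0, 0], [0, 0, 0, 0, -3, 5, 0, 0, 0, 0, 0, 0],
    [0, 0, 0, 0, 0, -4, 6, 0, 0, 0, 0, 0], [0, 0, 0, 0, 0, 0, -5, 7, 0, 0, 0, 0],
    [0, 0, 0, 0, 0, 0, -5, -5, 4, 0, 0, 0], [0, 0, 0, 0, 0, 0, 0, 0, -7, 1, 0, 0],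
    [0, 0, 0, 0, 0, 0, 0, 0, 0, 0, 1, 0], [0, 0, 0, 0, 0, 0, 0, 0, 0, 0, 0, 1]]

/-- the matrix K for the lattice number 5 -/
def eK5 : List (List ℤ) :=
    [[0, -4, 0, 0, 0, 0, 0, 0, 0, 0, 0, 0], [-4, 0, 0, 0, 0, 0, 0, 0, 0, 0, 0, 0],
    [0, 0, 8, 12, 16, 20, 24, 12, 16, 8, 0, 0], [0, 0, 12, 24, 32, 40, 48, 24, 32, 16, 0, 0],
    [0, 0, 16, 32, 48, 60, 72, 36, 48, 24, 0, 0],
    [0, 0, 20, 40, 60, 80, 96, 48, 64, 32, 0, 0],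
    [0, 0, 24, 48, 72, 96, 120, 60, 80, 40, 0, 0],
    [0, 0, 12, 24, 36, 48, 60, 32, 40, 20, 0, 0],
    [0, 0, 16, 32, 48, 64, 80, 40, 56, 28, 0, 0], [0, 0, 8, 16, 24, 32, 40, 20, 28, 16, 0, 0],
    [0, 0, 0, 0, 0, 0, 0, 0, 0, 0, 2, 0], [0, 0, 0, 0, 0, 0, 0, 0, 0, 0, 0, 1]]

/-- the scalars d for the lattice number 5 -/
def ed5 : List ℤ := [210, 210, 210, 70, 35, 21, 14, 10, 15, 105, 840, 1680]

/-- the matrix W for the lattice number 6 -/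
def eW6 : List (List ℤ) :=
    [[1, 1, 0, 0, 0, 0, 0, 0, 0, 0, 0, 0], [1, -1, 0, 0, 0, 0, 0, 0, 0, 0, 0, 0],
    [0, 0, 2, 0, 0, 0, 0, 0, 0, 0, 0, 0], [0, 0, -1, 3, 0, 0, 0, 0, 0, 0, 0, 0],
    [0, 0, 0, -2, 4, 0, 0, 0, 0, 0, 0, 0], [0, 0, 0, 0, -3, 5, 0, 0, 0, 0, 0, 0],
    [0, 0, 0, 0, 0, -4, 3, 0, 0, 0, 0, 0], [0, 0, 0, 0, 0, -4, -2, 1, 0, 0, 0, 0],
    [0, 0, 0, 0, 0, 0, 0, 0, 2, 0, 0, 0], [0, 0, 0, 0, 0, 0, 0, 0, -1, 3, 0, 0],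
    [0, 0, 0, 0, 0, 0, 0, 0, 0, -2, 2, 0], [0, 0, 0, 0, 0, 0, 0, 0, 0, -2, -1, 1]]

/-- the matrix K for the lattice number 6 -/
def eK6 : List (List ℤ) :=
    [[0, -2, 0, 0, 0, 0, 0, 0, 0, 0, 0, 0], [-2, 0, 0, 0, 0, 0, 0, 0, 0, 0, 0, 0],
    [0, 0, 2, 2, 2, 2, 1, 1, 0, 0, 0, 0], [0, 0, 2, 4, 4, 4, 2, 2, 0, 0, 0, 0],
    [0, 0, 2, 4, 6, 6, 3, 3, 0, 0, 0, 0], [0, 0, 2, 4, 6, 8, 4, 4, 0, 0, 0, 0],
    [0, 0, 1, 2, 3, 4, 3, 2, 0, 0, 0, 0], [0, 0, 1, 2, 3, 4, 2, 3, 0, 0, 0, 0],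
    [0, 0, 0, 0, 0, 0, 0, 0, 2, 2, 1, 1], [0, 0, 0, 0, 0, 0, 0, 0, 2, 4, 2, 2],
    [0, 0, 0, 0, 0, 0, 0, 0, 1, 2, 2, 1], [0, 0, 0, 0, 0, 0, 0, 0, 1, 2, 1, 2]]

/-- the scalars d for the lattice number 6 -/
def ed6 : List ℤ := [30, 30, 30, 10, 5, 3, 8, 40, 30, 10, 20, 60]

/-- the matrix W for the lattice number 7 -/
def eW7 : List (List ℤ) :=
    [[1, 1, 0, 0, 0, 0, 0, 0, 0, 0, 0], [1, -1, 0, 0, 0, 0, 0, 0, 0, 0, 0],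
    [0, 0, 2, 0, 0, 0, 0, 0, 0, 0, 0], [0, 0, -1, 3, 0, 0, 0, 0, 0, 0, 0],
    [0, 0, 0, -2, 4, 0, 0, 0, 0, 0, 0], [0, 0, 0, 0, -3, 5, 0, 0, 0, 0, 0],
    [0, 0, 0, 0, 0, -4, 6, 0, 0, 0, 0], [0, 0, 0, 0, 0, 0, -5, 7, 0, 0, 0],
    [0, 0, 0, 0, 0, 0, -5, -5, 4, 0, 0], [0, 0, 0, 0, 0, 0, 0, 0, -7, 1, 0],
    [0, 0, 0, 0, 0, 0, 0, 0, 0, 0, 1]]

/-- the matrix K for the lattice number 7 -/
def eK7 : List (List ℤ) :=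
    [[0, -2, 0, 0, 0, 0, 0, 0, 0, 0, 0], [-2, 0, 0, 0, 0, 0, 0, 0, 0, 0, 0],
    [0, 0, 4, 6, 8, 10, 12, 6, 8, 4, 0], [0, 0, 6, 12, 16, 20, 24, 12, 16, 8, 0],
    [0, 0, 8, 16, 24, 30, 36, 18, 24, 12, 0], [0, 0, 10, 20, 30, 40, 48, 24, 32, 16, 0],
    [0, 0, 12, 24, 36, 48, 60, 30, 40, 20, 0], [0, 0, 6, 12, 18, 24, 30, 16, 20, 10, 0],
    [0, 0, 8, 16, 24, 32, 40, 20, 28, 14, 0], [0, 0, 4, 8, 12, 16, 20, 10, 14, 8, 0],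
    [0, 0, 0, 0, 0, 0, 0, 0, 0, 0, 1]]

/-- the scalars d for the lattice number 7 -/
def ed7 : List ℤ := [210, 210, 210, 70, 35, 21, 14, 10, 15, 105, 840]

/-- the matrix W for the lattice number 8 -/
def eW8 : List (List ℤ) :=
    [[1, 1, 0, 0, 0, 0, 0, 0, 0, 0, 0], [1, -1, 0, 0, 0, 0, 0, 0, 0, 0, 0],
    [0, 0, 2, 0, 0, 0, 0, 0, 0, 0, 0], [0, 0, -1, 3, 0, 0, 0, 0, 0, 0, 0],
    [0, 0, 0, -2, 4, 0, 0, 0, 0, 0, 0], [0, 0, 0, 0, -3, 5, 0, 0, 0, 0, 0],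
    [0, 0, 0, 0, 0, -4, 6, 0, 0, 0, 0], [0, 0, 0, 0, 0, 0, -5, 7, 0, 0, 0],
    [0, 0, 0, 0, 0, 0, -5, -5, 4, 0, 0], [0, 0, 0, 0, 0, 0, 0, 0, -7, 1, 0],
    [0, 0, 0, 0, 0, 0, 0, 0, 0, 0, 1]]

/-- the matrix K for the lattice number 8 -/
def eK8 : List (List ℤ) :=
    [[0, -4, 0, 0, 0, 0, 0, 0, 0, 0, 0], [-4, 0, 0, 0, 0, 0, 0, 0, 0, 0, 0],
    [0, 0, 8, 12, 16, 20, 24, 12, 16, 8, 0], [0, 0, 12, 24, 32, 40, 48, 24, 32, 16, 0],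
    [0, 0, 16, 32, 48, 60, 72, 36, 48, 24, 0], [0, 0, 20, 40, 60, 80, 96, 48, 64, 32, 0],
    [0, 0, 24, 48, 72, 96, 120, 60, 80, 40, 0], [0, 0, 12, 24, 36, 48, 60, 32, 40, 20, 0],
    [0, 0, 16, 32, 48, 64, 80, 40, 56, 28, 0], [0, 0, 8, 16, 24, 32, 40, 20, 28, 16, 0],
    [0, 0, 0, 0, 0, 0, 0, 0, 0, 0, 1]]

/-- the scalars d for the lattice number 8 -/
def ed8 : List ℤ := [210, 210, 210, 70, 35, 21, 14, 10, 15, 105, 1680]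

/-- the matrix W for the lattice number 9 -/
def eW9 : List (List ℤ) :=
    [[1, 1, 0, 0, 0, 0, 0, 0, 0, 0, 0], [1, -1, 0, 0, 0, 0, 0, 0, 0, 0, 0],
    [0, 0, 2, 0, 0, 0, 0, 0, 0, 0, 0], [0, 0, -1, 3, 0, 0, 0, 0, 0, 0, 0],
    [0, 0, 0, -2, 4, 0, 0, 0, 0, 0, 0], [0, 0, 0, 0, -3, 5, 0, 0, 0, 0, 0],
    [0, 0, 0, 0, 0, -4, 6, 0, 0, 0, 0], [0, 0, 0, 0, 0, 0, -5, 7, 0, 0, 0],
    [0, 0, 0, 0, 0, 0, -5, -5, 4, 0, 0], [0, 0, 0, 0, 0, 0, 0, 0, -7, 1, 0],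
    [0, 0, 0, 0, 0, 0, 0, 0, 0, 0, 1]]

/-- the matrix K for the lattice number 9 -/
def eK9 : List (List ℤ) :=
    [[0, -6, 0, 0, 0, 0, 0, 0, 0, 0, 0], [-6, 0, 0, 0, 0, 0, 0, 0, 0, 0, 0],
    [0, 0, 12, 18, 24, 30, 36, 18, 24, 12, 0], [0, 0, 18, 36, 48, 60, 72, 36, 48, 24, 0],
    [0, 0, 24, 48, 72, 90, 108, 54, 72, 36, 0], [0, 0, 30, 60, 90, 120, 144, 72, 96, 48, 0],
    [0, 0, 36, 72, 108, 144, 180, 90, 120, 60, 0], [0, 0, 18, 36, 54, 72, 90, 48, 60, 30, 0],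
    [0, 0, 24, 48, 72, 96, 120, 60, 84, 42, 0], [0, 0, 12, 24, 36, 48, 60, 30, 42, 24, 0],
    [0, 0, 0, 0, 0, 0, 0, 0, 0, 0, 1]]

/-- the scalars d for the lattice number 9 -/
def ed9 : List ℤ := [210, 210, 210, 70, 35, 21, 14, 10, 15, 105, 2520]

/-- the matrix W for the lattice number 10 -/
def eW10 : List (List ℤ) :=
    [[1, 1, 0, 0, 0, 0, 0, 0, 0, 0, 0], [1, -1, 0, 0, 0, 0, 0, 0, 0, 0, 0],
    [0, 0, 2, 0, 0, 0, 0, 0, 0, 0, 0], [0, 0, -1, 3, 0, 0, 0, 0, 0, 0, 0],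
    [0, 0, 0, -2, 4, 0, 0, 0, 0, 0, 0], [0, 0, 0, 0, -3, 5, 0, 0, 0, 0, 0],
    [0, 0, 0, 0, 0, -4, 3, 0, 0, 0, 0], [0, 0, 0, 0, 0, -4, -2, 2, 0, 0, 0],
    [0, 0, 0, 0, 0, 0, 0, -3, 1, 0, 0], [0, 0, 0, 0, 0, 0, 0, 0, 0, 1, 0],
    [0, 0, 0, 0, 0, 0, 0, 0, 0, 0, 1]]

/-- the matrix K for the lattice number 10 -/
def eK10 : List (List ℤ) :=
    [[0, -2, 0, 0, 0, 0, 0, 0, 0, 0, 0], [-2, 0, 0, 0, 0, 0, 0, 0, 0, 0, 0],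
    [0, 0, 3, 4, 5, 6, 3, 4, 2, 0, 0], [0, 0, 4, 8, 10, 12, 6, 8, 4, 0, 0],
    [0, 0, 5, 10, 15, 18, 9, 12, 6, 0, 0], [0, 0, 6, 12, 18, 24, 12, 16, 8, 0, 0],
    [0, 0, 3, 6, 9, 12, 7, 8, 4, 0, 0], [0, 0, 4, 8, 12, 16, 8, 12, 6, 0, 0],
    [0, 0, 2, 4, 6, 8, 4, 6, 4, 0, 0], [0, 0, 0, 0, 0, 0, 0, 0, 0, 1, 0],
    [0, 0, 0, 0, 0, 0, 0, 0, 0, 0, 1]]

/-- the scalars d for the lattice number 10 -/
def ed10 : List ℤ := [30, 30, 30, 10, 5, 3, 8, 10, 30, 120, 120]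

/-- the matrix W for the lattice number 11 -/
def eW11 : List (List ℤ) :=
    [[1, 1, 0, 0, 0, 0, 0, 0, 0, 0, 0], [1, -1, 0, 0, 0, 0, 0, 0, 0, 0, 0],
    [0, 0, 2, 0, 0, 0, 0, 0, 0, 0, 0], [0, 0, -1, 3, 0, 0, 0, 0, 0, 0, 0],
    [0, 0, 0, -2, 4, 0, 0, 0, 0, 0, 0], [0, 0, 0, 0, -3, 5, 0, 0, 0, 0, 0],
    [0, 0, 0, 0, -3, -3, 1, 0, 0, 0, 0], [0, 0, 0, 0, 0, 0, 0, 2, 0, 0, 0],
    [0, 0, 0, 0, 0, 0, 0, -1, 3, 0, 0], [0, 0, 0, 0, 0, 0, 0, 0, -2, 2, 0],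
    [0, 0, 0, 0, 0, 0, 0, 0, -2, -1, 1]]

/-- the matrix K for the lattice number 11 -/
def eK11 : List (List ℤ) :=
    [[0, -4, 0, 0, 0, 0, 0, 0, 0, 0, 0], [-4, 0, 0, 0, 0, 0, 0, 0, 0, 0, 0],
    [0, 0, 4, 4, 4, 2, 2, 0, 0, 0, 0], [0, 0, 4, 8, 8, 4, 4, 0, 0, 0, 0],
    [0, 0, 4, 8, 12, 6, 6, 0, 0, 0, 0], [0, 0, 2, 4, 6, 5, 3, 0, 0, 0, 0],
    [0, 0, 2, 4, 6, 3, 5, 0, 0, 0, 0], [0, 0, 0, 0, 0, 0, 0, 4, 4, 2, 2],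
    [0, 0, 0, 0, 0, 0, 0, 4, 8, 4, 4], [0, 0, 0, 0, 0, 0, 0, 2, 4, 4, 2],
    [0, 0, 0, 0, 0, 0, 0, 2, 4, 2, 4]]

/-- the scalars d for the lattice number 11 -/
def ed11 : List ℤ := [30, 30, 30, 10, 5, 3, 48, 30, 10, 20, 60]

/-- the matrix W for the lattice number 12 -/
def eW12 : List (List ℤ) :=
    [[1, 1, 0, 0, 0, 0, 0, 0, 0, 0, 0], [1, -1, 0, 0, 0, 0, 0, 0, 0, 0, 0],
    [0, 0, 2, 0, 0, 0, 0, 0, 0, 0, 0], [0, 0, -1, 3, 0, 0, 0, 0, 0, 0, 0],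
    [0, 0, 0, -2, 2, 0, 0, 0, 0, 0, 0], [0, 0, 0, -2, -1, 1, 0, 0, 0, 0, 0],
    [0, 0, 0, 0, 0, 0, 2, 0, 0, 0, 0], [0, 0, 0, 0, 0, 0, -1, 3, 0, 0, 0],
    [0, 0, 0, 0, 0, 0, 0, -2, 2, 0, 0], [0, 0, 0, 0, 0, 0, 0, -2, -1, 1, 0],
    [0, 0, 0, 0, 0, 0, 0, 0, 0, 0, 1]]

/-- the matrix K for the lattice number 12 -/
def eK12 : List (List ℤ) :=
    [[0, -2, 0, 0, 0, 0, 0, 0, 0, 0, 0], [-2, 0, 0, 0, 0, 0, 0, 0, 0, 0, 0],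
    [0, 0, 2, 2, 1, 1, 0, 0, 0, 0, 0], [0, 0, 2, 4, 2, 2, 0, 0, 0, 0, 0],
    [0, 0, 1, 2, 2, 1, 0, 0, 0, 0, 0], [0, 0, 1, 2, 1, 2, 0, 0, 0, 0, 0],
    [0, 0, 0, 0, 0, 0, 2, 2, 1, 1, 0], [0, 0, 0, 0, 0, 0, 2, 4, 2, 2, 0],
    [0, 0, 0, 0, 0, 0, 1, 2, 2, 1, 0], [0, 0, 0, 0, 0, 0, 1, 2, 1, 2, 0],
    [0, 0, 0, 0, 0, 0, 0, 0, 0, 0, 1]]

/-- the scalars d for the lattice number 12 -/
def ed12 : List ℤ := [3, 3, 3, 1, 2, 6, 3, 1, 2, 6, 12]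

/-- module Q_EX: the 13 lattices exist -/
theorem q_ex : Q_EX := by
  intro n l hl hn
  simp only [reps, List.mem_cons, List.not_mem_nil, or_false] at hl
  rcases hl with rfl | rfl | rfl | rfl | rfl | rfl | rfl | rfl | rfl | rfl | rfl | rfl | rfl
  · simp only [List.map_cons, List.map_nil, List.sum_cons, List.sum_nil, Ty.rk] at hn
    subst hn
    exact ex_basis eW0 eK0 ed0 420 2 (by decide +kernel)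
  · simp only [List.map_cons, List.map_nil, List.sum_cons, List.sum_nil, Ty.rk] at hn
    subst hn
    exact ex_basis eW1 eK1 ed1 420 4 (by decide +kernel)
  · simp only [List.map_cons, List.map_nil, List.sum_cons, List.sum_nil, Ty.rk] at hn
    subst hn
    exact ex_basis eW2 eK2 ed2 420 2 (by decide +kernel)
  · simp only [List.map_cons, List.map_nil, List.sum_cons, List.sum_nil, Ty.rk] at hn
    subst hn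
    exact ex_basis eW3 eK3 ed3 420 3 (by decide +kernel)
  · simp only [List.map_cons, List.map_nil, List.sum_cons, List.sum_nil, Ty.rk] at hn
    subst hn
    exact ex_basis eW4 eK4 ed4 420 2 (by decide +kernel)
  · simp only [List.map_cons, List.map_nil, List.sum_cons, List.sum_nil, Ty.rk] at hn
    subst hn
    exact ex_basis eW5 eK5 ed5 420 4 (by decide +kernel)
  · simp only [List.map_cons, List.map_nil, List.sum_cons, List.sum_nil, Ty.rk] at hn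
    subst hn
    exact ex_basis eW6 eK6 ed6 60 2 (by decide +kernel)
  · simp only [List.map_cons, List.map_nil, List.sum_cons, List.sum_nil, Ty.rk] at hn
    subst hn
    exact ex_basis eW7 eK7 ed7 420 2 (by decide +kernel)
  · simp only [List.map_cons, List.map_nil, List.sum_cons, List.sum_nil, Ty.rk] at hn
    subst hn
    exact ex_basis eW8 eK8 ed8 420 4 (by decide +kernel)
  · simp only [List.map_cons, List.map_nil, List.sum_cons, List.sum_nil, Ty.rk] at hn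
    subst hn
    exact ex_basis eW9 eK9 ed9 420 6 (by decide +kernel)
  · simp only [List.map_cons, List.map_nil, List.sum_cons, List.sum_nil, Ty.rk] at hn
    subst hn
    exact ex_basis eW10 eK10 ed10 60 2 (by decide +kernel)
  · simp only [List.map_cons, List.map_nil, List.sum_cons, List.sum_nil, Ty.rk] at hn
    subst hn
    exact ex_basis eW11 eK11 ed11 60 4 (by decide +kernel)
  · simp only [List.map_cons, List.map_nil, List.sum_cons, List.sum_nil, Ty.rk] at hn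
    subst hn
    exact ex_basis eW12 eK12 ed12 6 2 (by decide +kernel)

end Pool.Agent.CN3.H63

end
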