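import Pool.Agent.Helper2_CN3.Stmts
import Pool.Agent.Helper2_CN2.IChg

/-!
Squad CN3, module Q_RK: the rank modulo the primes
-/

noncomputable section

namespace Pool.Agent.CN3.H63

open Pool.Agent.H25Cong Pool.Agent.CON Pool.Agent.CN2 Pool.Agent.CN2.H2

/-- the certificate: the matrix A G Cᵗ is the identity matrix of size k -/
def rkc (m k : ℕ) (G A C : List (List ℤ)) : Bool :=
  decide (mulT (mulT A G) C = mat k fun i j => if i = j then 1 else 0) &&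
  decide (A.length = k) && decide (C.length = k) && decide (G.length = m) &&
  A.all (fun r => decide (r.length = m)) && C.all (fun r => decide (r.length = m))

lemma rk_ind {n k : ℕ} {L : Submodule ℤ (V n)} {G : List (List ℤ)} (A C : List (List ℤ))
    (hG : GrL L G) (h : rkc (n + 1) k G A C = true) (p : ℕ) : Ind L p k := by
  obtain ⟨hGl, c, hcL, -, hcB⟩ := hG
  simp only [rkc, Bool.and_eq_true, decide_eq_true_eq, List.all_eq_true] at h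
  obtain ⟨⟨⟨⟨⟨h1, hA⟩, hC⟩, -⟩, hAr⟩, hCr⟩ := h
  set m := n + 1 with hm
  have ez : ∀ (z : ℤ) (x : V n), z • x = (z : ℝ) • x := fun z x =>
    (Int.cast_smul_eq_zsmul ℝ z x).symm
  have hent : ∀ i < k, ∀ l < k, ∑ j ∈ Finset.range m,
      (∑ a ∈ Finset.range m, ent A i a * ent G j a) * ent C l j = if i = l then 1 else 0 := by
    intro i hi l hl
    have e1 := congrArg (fun X => ent X i l) h1
    rw [ic_mat k _ hi hl, ic_mulT (m := m) _ _ (by simp [mulT]; omega) (by omega) (by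
      intro u hu
      unfold mulT at hu
      obtain ⟨w, -, rfl⟩ := List.mem_map.mp hu
      simp [hGl])] at e1
    rw [← e1]
    apply Finset.sum_congr rfl
    intro j hj
    rw [ic_mulT (m := m) _ _ (by omega) (by rw [hGl]; exact Finset.mem_range.mp hj)
      (fun u hu => (hAr u hu).le)]
  set cc : ℕ → V n := fun i => ∑ a ∈ Finset.range m, ent A i a • c a with hcc
  set ww : ℕ → V n := fun l => ∑ j ∈ Finset.range m, ent C l j • c j with hww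
  have hccL : ∀ i, cc i ∈ L := fun i =>
    L.sum_mem fun j hj => L.smul_mem _ (hcL j (Finset.mem_range.mp hj))
  have hwwL : ∀ i, ww i ∈ L := fun i =>
    L.sum_mem fun j hj => L.smul_mem _ (hcL j (Finset.mem_range.mp hj))
  have key : ∀ i < k, ∀ l < k, B (cc i) (ww l) = if i = l then 1 else 0 := by
    intro i hi l hl
    have e0 : B (cc i) (ww l) = ∑ a ∈ Finset.range m, ∑ j ∈ Finset.range m,
        ((ent A i a * ent G j a * ent C l j : ℤ) : ℝ) := by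
      rw [hcc, hww, B_sum_left]
      apply Finset.sum_congr rfl
      intro a ha
      rw [B_sum_right]
      apply Finset.sum_congr rfl
      intro j hj
      rw [ez, ez, B_smul_left, B_smul_right, B_comm, hcB j (Finset.mem_range.mp hj) a
        (Finset.mem_range.mp ha)]
      push_cast
      ring
    rw [e0, Finset.sum_comm]
    have e1 := congrArg (fun z : ℤ => (z : ℝ)) (hent i hi l hl)
    simp only [Finset.sum_mul] at e1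
    push_cast at e1 ⊢
    rw [e1]
  refine ⟨fun i => cc i, fun i => hccL i, fun z hz i => ?_⟩
  obtain ⟨j, hj⟩ := hz (ww i) (hwwL i)
  have e1 : B (∑ l : Fin k, (z l : ℝ) • cc l) (ww i) = z i := by
    rw [B_sum_left, Finset.sum_eq_single i]
    · rw [B_smul_left, key i i.2 i i.2, if_pos rfl, mul_one]
    · intro b _ hb
      rw [B_smul_left, key b b.2 i i.2, if_neg (fun h => hb (Fin.ext h)), mul_zero]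
    · intro hi
      exact absurd (Finset.mem_univ _) hi
  rw [e1] at hj
  refine ⟨j, ?_⟩
  exact_mod_cast hj

/-- the matrix A for the lattice number 0 -/
def rA0 : List (List ℤ) :=
    [[-1, 0, 0, 0, 0, 0, 0, 0, 0, 0, 0, 0, 0, 0], [0, -1, 0, 0, 0, 0, 0, 0, 0, 0, 0, 0, 0, 0],
    [0, 0, -1, 0, 0, 0, 0, 0, 0, 0, 0, 0, 0, 0], [0, 0, -2, -1, 0, 0, 0, 0, 0, 0, 0, 0, 0, 0],
    [0, 0, -3, -2, -1, 0, 0, 0, 0, 0, 0, 0, 0, 0],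
    [0, 0, -4, -3, -2, -1, 0, 0, 0, 0, 0, 0, 0, 0],
    [0, 0, -5, -4, -3, -2, -1, 0, 0, 0, 0, 0, 0, 0],
    [0, 0, 4, 3, 2, 1, 0, 0, -1, 0, 0, 0, 0, 0],
    [0, 0, -6, -5, -4, -3, -2, -1, 0, 0, 0, 0, 0, 0],
    [0, 0, -4, -4, -4, -4, -4, -2, -2, -1, 0, 0, 0, 0],
    [0, 0, 0, 0, 0, 0, 0, 0, 0, 0, -1, 0, 0, 0], [0, 0, 0, 0, 0, 0, 0, 0, 0, 0, -2, -1, 0, 0]]

/-- the matrix C for the lattice number 0 -/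
def rC0 : List (List ℤ) :=
    [[0, 1, 0, 0, 0, 0, 0, 0, 0, 0, 0, 0, 0, 0], [1, 0, 0, 0, 0, 0, 0, 0, 0, 0, 0, 0, 0, 0],
    [0, 0, 0, 1, 0, 0, 0, 0, 0, 0, 0, 0, 0, 0], [0, 0, 0, 0, 1, 0, 0, 0, 0, 0, 0, 0, 0, 0],
    [0, 0, 0, 0, 0, 1, 0, 0, 0, 0, 0, 0, 0, 0], [0, 0, 0, 0, 0, 0, 1, 0, 0, 0, 0, 0, 0, 0],
    [0, 0, 0, 0, 0, 0, 0, 1, 0, 0, 0, 0, 0, 0], [0, 0, 0, 0, 0, 0, 0, 0, 0, 1, 0, 0, 0, 0],
    [0, 0, 1, 2, 3, 4, 5, 2, 4, 3, 0, 0, 0, 0],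
    [0, 0, -2, -4, -6, -8, -10, -5, -7, -4, 0, 0, 0, 0],
    [0, 0, 0, 0, 0, 0, 0, 0, 0, 0, 0, 1, 0, 0], [0, 0, 0, 0, 0, 0, 0, 0, 0, 0, 0, 0, 1, 0]]

/-- the matrix A for the lattice number 1 -/
def rA1 : List (List ℤ) :=
    [[-1, 0, 0, 0, 0, 0, 0, 0, 0, 0, 0, 0, 0], [0, -1, 0, 0, 0, 0, 0, 0, 0, 0, 0, 0, 0],
    [0, 0, -1, 0, 0, 0, 0, 0, 0, 0, 0, 0, 0], [0, 0, -2, -1, 0, 0, 0, 0, 0, 0, 0, 0, 0],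
    [0, 0, -3, -2, -1, 0, 0, 0, 0, 0, 0, 0, 0], [0, 0, -4, -3, -2, -1, 0, 0, 0, 0, 0, 0, 0],
    [0, 0, -5, -4, -3, -2, -1, 0, 0, 0, 0, 0, 0], [0, 0, 4, 3, 2, 1, 0, 0, -1, 0, 0, 0, 0],
    [0, 0, -6, -5, -4, -3, -2, -1, 0, 0, 0, 0, 0],
    [0, 0, -4, -4, -4, -4, -4, -2, -2, -1, 0, 0, 0], [0, 0, 0, 0, 0, 0, 0, 0, 0, 0, -1, 0, 0],
    [0, 0, 0, 0, 0, 0, 0, 0, 0, 0, -2, -1, 0]]

/-- the matrix C for the lattice number 1 -/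
def rC1 : List (List ℤ) :=
    [[0, 1, 0, 0, 0, 0, 0, 0, 0, 0, 0, 0, 0], [1, 0, 0, 0, 0, 0, 0, 0, 0, 0, 0, 0, 0],
    [0, 0, 0, 1, 0, 0, 0, 0, 0, 0, 0, 0, 0], [0, 0, 0, 0, 1, 0, 0, 0, 0, 0, 0, 0, 0],
    [0, 0, 0, 0, 0, 1, 0, 0, 0, 0, 0, 0, 0], [0, 0, 0, 0, 0, 0, 1, 0, 0, 0, 0, 0, 0],
    [0, 0, 0, 0, 0, 0, 0, 1, 0, 0, 0, 0, 0], [0, 0, 0, 0, 0, 0, 0, 0, 0, 1, 0, 0, 0],
    [0, 0, 1, 2, 3, 4, 5, 2, 4, 3, 0, 0, 0], [0, 0, -2, -4, -6, -8, -10, -5, -7, -4, 0, 0, 0],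
    [0, 0, 0, 0, 0, 0, 0, 0, 0, 0, 0, 1, 0], [0, 0, 0, 0, 0, 0, 0, 0, 0, 0, 0, 0, 1]]

/-- the matrix A for the lattice number 2 -/
def rA2 : List (List ℤ) :=
    [[-1, 0, 0, 0, 0, 0, 0, 0, 0, 0, 0, 0, 0], [0, -1, 0, 0, 0, 0, 0, 0, 0, 0, 0, 0, 0],
    [0, 0, -1, 0, 0, 0, 0, 0, 0, 0, 0, 0, 0], [0, 0, -2, -1, 0, 0, 0, 0, 0, 0, 0, 0, 0],
    [0, 0, -3, -2, -1, 0, 0, 0, 0, 0, 0, 0, 0], [0, 0, -4, -3, -2, -1, 0, 0, 0, 0, 0, 0, 0],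
    [0, 0, -5, -4, -3, -2, -1, 0, 0, 0, 0, 0, 0], [0, 0, 4, 3, 2, 1, 0, 0, -1, 0, 0, 0, 0],
    [0, 0, -6, -5, -4, -3, -2, -1, 0, 0, 0, 0, 0],
    [0, 0, -4, -4, -4, -4, -4, -2, -2, -1, 0, 0, 0]]

/-- the matrix C for the lattice number 2 -/
def rC2 : List (List ℤ) :=
    [[0, 1, 0, 0, 0, 0, 0, 0, 0, 0, 0, 0, 0], [1, 0, 0, 0, 0, 0, 0, 0, 0, 0, 0, 0, 0],
    [0, 0, 0, 1, 0, 0, 0, 0, 0, 0, 0, 0, 0], [0, 0, 0, 0, 1, 0, 0, 0, 0, 0, 0, 0, 0],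
    [0, 0, 0, 0, 0, 1, 0, 0, 0, 0, 0, 0, 0], [0, 0, 0, 0, 0, 0, 1, 0, 0, 0, 0, 0, 0],
    [0, 0, 0, 0, 0, 0, 0, 1, 0, 0, 0, 0, 0], [0, 0, 0, 0, 0, 0, 0, 0, 0, 1, 0, 0, 0],
    [0, 0, 1, 2, 3, 4, 5, 2, 4, 3, 0, 0, 0], [0, 0, -2, -4, -6, -8, -10, -5, -7, -4, 0, 0, 0]]

/-- the matrix A for the lattice number 3 -/
def rA3 : List (List ℤ) :=
    [[-1, 0, 0, 0, 0, 0, 0, 0, 0, 0, 0, 0], [0, -1, 0, 0, 0, 0, 0, 0, 0, 0, 0, 0],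
    [0, 0, -1, 0, 0, 0, 0, 0, 0, 0, 0, 0], [0, 0, -2, -1, 0, 0, 0, 0, 0, 0, 0, 0],
    [0, 0, -3, -2, -1, 0, 0, 0, 0, 0, 0, 0], [0, 0, -4, -3, -2, -1, 0, 0, 0, 0, 0, 0],
    [0, 0, -5, -4, -3, -2, -1, 0, 0, 0, 0, 0], [0, 0, 4, 3, 2, 1, 0, 0, -1, 0, 0, 0],
    [0, 0, -6, -5, -4, -3, -2, -1, 0, 0, 0, 0], [0, 0, -4, -4, -4, -4, -4, -2, -2, -1, 0, 0],
    [0, 0, 0, 0, 0, 0, 0, 0, 0, 0, -1, 0]]

/-- the matrix C for the lattice number 3 -/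
def rC3 : List (List ℤ) :=
    [[0, 1, 0, 0, 0, 0, 0, 0, 0, 0, 0, 0], [1, 0, 0, 0, 0, 0, 0, 0, 0, 0, 0, 0],
    [0, 0, 0, 1, 0, 0, 0, 0, 0, 0, 0, 0], [0, 0, 0, 0, 1, 0, 0, 0, 0, 0, 0, 0],
    [0, 0, 0, 0, 0, 1, 0, 0, 0, 0, 0, 0], [0, 0, 0, 0, 0, 0, 1, 0, 0, 0, 0, 0],
    [0, 0, 0, 0, 0, 0, 0, 1, 0, 0, 0, 0], [0, 0, 0, 0, 0, 0, 0, 0, 0, 1, 0, 0],
    [0, 0, 1, 2, 3, 4, 5, 2, 4, 3, 0, 0], [0, 0, -2, -4, -6, -8, -10, -5, -7, -4, 0, 0],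
    [0, 0, 0, 0, 0, 0, 0, 0, 0, 0, 0, 1]]

/-- the matrix A for the lattice number 4 -/
def rA4 : List (List ℤ) :=
    [[-1, 0, 0, 0, 0, 0, 0, 0, 0, 0, 0, 0], [0, -1, 0, 0, 0, 0, 0, 0, 0, 0, 0, 0],
    [0, 0, -1, 0, 0, 0, 0, 0, 0, 0, 0, 0], [0, 0, -2, -1, 0, 0, 0, 0, 0, 0, 0, 0],
    [0, 0, -3, -2, -1, 0, 0, 0, 0, 0, 0, 0], [0, 0, -4, -3, -2, -1, 0, 0, 0, 0, 0, 0],
    [0, 0, -5, -4, -3, -2, -1, 0, 0, 0, 0, 0], [0, 0, 4, 3, 2, 1, 0, 0, -1, 0, 0, 0],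
    [0, 0, -6, -5, -4, -3, -2, -1, 0, 0, 0, 0], [0, 0, -4, -4, -4, -4, -4, -2, -2, -1, 0, 0]]

/-- the matrix C for the lattice number 4 -/
def rC4 : List (List ℤ) :=
    [[0, 1, 0, 0, 0, 0, 0, 0, 0, 0, 0, 0], [1, 0, 0, 0, 0, 0, 0, 0, 0, 0, 0, 0],
    [0, 0, 0, 1, 0, 0, 0, 0, 0, 0, 0, 0], [0, 0, 0, 0, 1, 0, 0, 0, 0, 0, 0, 0],
    [0, 0, 0, 0, 0, 1, 0, 0, 0, 0, 0, 0], [0, 0, 0, 0, 0, 0, 1, 0, 0, 0, 0, 0],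
    [0, 0, 0, 0, 0, 0, 0, 1, 0, 0, 0, 0], [0, 0, 0, 0, 0, 0, 0, 0, 0, 1, 0, 0],
    [0, 0, 1, 2, 3, 4, 5, 2, 4, 3, 0, 0], [0, 0, -2, -4, -6, -8, -10, -5, -7, -4, 0, 0]]

/-- the matrix A for the lattice number 5 -/
def rA5 : List (List ℤ) :=
    [[-1, 0, 0, 0, 0, 0, 0, 0, 0, 0, 0, 0], [0, -1, 0, 0, 0, 0, 0, 0, 0, 0, 0, 0],
    [0, 0, -1, 0, 0, 0, 0, 0, 0, 0, 0, 0], [0, 0, -2, -1, 0, 0, 0, 0, 0, 0, 0, 0],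
    [0, 0, -3, -2, -1, 0, 0, 0, 0, 0, 0, 0], [0, 0, -4, -3, -2, -1, 0, 0, 0, 0, 0, 0],
    [0, 0, -5, -4, -3, -2, -1, 0, 0, 0, 0, 0], [0, 0, 4, 3, 2, 1, 0, 0, -1, 0, 0, 0],
    [0, 0, -6, -5, -4, -3, -2, -1, 0, 0, 0, 0], [0, 0, -4, -4, -4, -4, -4, -2, -2, -1, 0, 0]]

/-- the matrix C for the lattice number 5 -/
def rC5 : List (List ℤ) :=
    [[0, 1, 0, 0, 0, 0, 0, 0, 0, 0, 0, 0], [1, 0, 0, 0, 0, 0, 0, 0, 0, 0, 0, 0],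
    [0, 0, 0, 1, 0, 0, 0, 0, 0, 0, 0, 0], [0, 0, 0, 0, 1, 0, 0, 0, 0, 0, 0, 0],
    [0, 0, 0, 0, 0, 1, 0, 0, 0, 0, 0, 0], [0, 0, 0, 0, 0, 0, 1, 0, 0, 0, 0, 0],
    [0, 0, 0, 0, 0, 0, 0, 1, 0, 0, 0, 0], [0, 0, 0, 0, 0, 0, 0, 0, 0, 1, 0, 0],
    [0, 0, 1, 2, 3, 4, 5, 2, 4, 3, 0, 0], [0, 0, -2, -4, -6, -8, -10, -5, -7, -4, 0, 0]]

/-- the matrix A for the lattice number 6 -/
def rA6 : List (List ℤ) :=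
    [[-1, 0, 0, 0, 0, 0, 0, 0, 0, 0, 0, 0], [0, -1, 0, 0, 0, 0, 0, 0, 0, 0, 0, 0],
    [0, 0, -1, 0, 0, 0, 0, 0, 0, 0, 0, 0], [0, 0, -2, -1, 0, 0, 0, 0, 0, 0, 0, 0],
    [0, 0, -3, -2, -1, 0, 0, 0, 0, 0, 0, 0], [0, 0, -4, -3, -2, -1, 0, 0, 0, 0, 0, 0],
    [0, 0, 0, 0, 0, 0, 0, 0, -1, 0, 0, 0], [0, 0, 0, 0, 0, 0, 0, 0, -2, -1, 0, 0]]

/-- the matrix C for the lattice number 6 -/
def rC6 : List (List ℤ) :=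
    [[0, 1, 0, 0, 0, 0, 0, 0, 0, 0, 0, 0], [1, 0, 0, 0, 0, 0, 0, 0, 0, 0, 0, 0],
    [0, 0, 0, 1, 0, 0, 0, 0, 0, 0, 0, 0], [0, 0, 0, 0, 1, 0, 0, 0, 0, 0, 0, 0],
    [0, 0, 0, 0, 0, 1, 0, 0, 0, 0, 0, 0], [0, 0, 0, 0, 0, 0, 1, 0, 0, 0, 0, 0],
    [0, 0, 0, 0, 0, 0, 0, 0, 0, 1, 0, 0], [0, 0, 0, 0, 0, 0, 0, 0, 0, 0, 1, 0]]

/-- the matrix A for the lattice number 7 -/
def rA7 : List (List ℤ) :=
    [[-1, 0, 0, 0, 0, 0, 0, 0, 0, 0, 0], [0, -1, 0, 0, 0, 0, 0, 0, 0, 0, 0],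
    [0, 0, -1, 0, 0, 0, 0, 0, 0, 0, 0], [0, 0, -2, -1, 0, 0, 0, 0, 0, 0, 0],
    [0, 0, -3, -2, -1, 0, 0, 0, 0, 0, 0], [0, 0, -4, -3, -2, -1, 0, 0, 0, 0, 0],
    [0, 0, -5, -4, -3, -2, -1, 0, 0, 0, 0], [0, 0, 4, 3, 2, 1, 0, 0, -1, 0, 0],
    [0, 0, -6, -5, -4, -3, -2, -1, 0, 0, 0], [0, 0, -4, -4, -4, -4, -4, -2, -2, -1, 0]]

/-- the matrix C for the lattice number 7 -/
def rC7 : List (List ℤ) :=
    [[0, 1, 0, 0, 0, 0, 0, 0, 0, 0, 0], [1, 0, 0, 0, 0, 0, 0, 0, 0, 0, 0],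
    [0, 0, 0, 1, 0, 0, 0, 0, 0, 0, 0], [0, 0, 0, 0, 1, 0, 0, 0, 0, 0, 0],
    [0, 0, 0, 0, 0, 1, 0, 0, 0, 0, 0], [0, 0, 0, 0, 0, 0, 1, 0, 0, 0, 0],
    [0, 0, 0, 0, 0, 0, 0, 1, 0, 0, 0], [0, 0, 0, 0, 0, 0, 0, 0, 0, 1, 0],
    [0, 0, 1, 2, 3, 4, 5, 2, 4, 3, 0], [0, 0, -2, -4, -6, -8, -10, -5, -7, -4, 0]]

/-- the matrix A for the lattice number 8 -/
def rA8 : List (List ℤ) :=
    [[-1, 0, 0, 0, 0, 0, 0, 0, 0, 0, 0], [0, -1, 0, 0, 0, 0, 0, 0, 0, 0, 0],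
    [0, 0, -1, 0, 0, 0, 0, 0, 0, 0, 0], [0, 0, -2, -1, 0, 0, 0, 0, 0, 0, 0],
    [0, 0, -3, -2, -1, 0, 0, 0, 0, 0, 0], [0, 0, -4, -3, -2, -1, 0, 0, 0, 0, 0],
    [0, 0, -5, -4, -3, -2, -1, 0, 0, 0, 0], [0, 0, 4, 3, 2, 1, 0, 0, -1, 0, 0],
    [0, 0, -6, -5, -4, -3, -2, -1, 0, 0, 0], [0, 0, -4, -4, -4, -4, -4, -2, -2, -1, 0]]

/-- the matrix C for the lattice number 8 -/
def rC8 : List (List ℤ) :=
    [[0, 1, 0, 0, 0, 0, 0, 0, 0, 0, 0], [1, 0, 0, 0, 0, 0, 0, 0, 0, 0, 0],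
    [0, 0, 0, 1, 0, 0, 0, 0, 0, 0, 0], [0, 0, 0, 0, 1, 0, 0, 0, 0, 0, 0],
    [0, 0, 0, 0, 0, 1, 0, 0, 0, 0, 0], [0, 0, 0, 0, 0, 0, 1, 0, 0, 0, 0],
    [0, 0, 0, 0, 0, 0, 0, 1, 0, 0, 0], [0, 0, 0, 0, 0, 0, 0, 0, 0, 1, 0],
    [0, 0, 1, 2, 3, 4, 5, 2, 4, 3, 0], [0, 0, -2, -4, -6, -8, -10, -5, -7, -4, 0]]

/-- the matrix A for the lattice number 9 -/
def rA9 : List (List ℤ) :=
    [[-1, 0, 0, 0, 0, 0, 0, 0, 0, 0, 0], [0, -1, 0, 0, 0, 0, 0, 0, 0, 0, 0],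
    [0, 0, -1, 0, 0, 0, 0, 0, 0, 0, 0], [0, 0, -2, -1, 0, 0, 0, 0, 0, 0, 0],
    [0, 0, -3, -2, -1, 0, 0, 0, 0, 0, 0], [0, 0, -4, -3, -2, -1, 0, 0, 0, 0, 0],
    [0, 0, -5, -4, -3, -2, -1, 0, 0, 0, 0], [0, 0, 4, 3, 2, 1, 0, 0, -1, 0, 0],
    [0, 0, -6, -5, -4, -3, -2, -1, 0, 0, 0], [0, 0, -4, -4, -4, -4, -4, -2, -2, -1, 0]]

/-- the matrix C for the lattice number 9 -/
def rC9 : List (List ℤ) :=
    [[0, 1, 0, 0, 0, 0, 0, 0, 0, 0, 0], [1, 0, 0, 0, 0, 0, 0, 0, 0, 0, 0],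
    [0, 0, 0, 1, 0, 0, 0, 0, 0, 0, 0], [0, 0, 0, 0, 1, 0, 0, 0, 0, 0, 0],
    [0, 0, 0, 0, 0, 1, 0, 0, 0, 0, 0], [0, 0, 0, 0, 0, 0, 1, 0, 0, 0, 0],
    [0, 0, 0, 0, 0, 0, 0, 1, 0, 0, 0], [0, 0, 0, 0, 0, 0, 0, 0, 0, 1, 0],
    [0, 0, 1, 2, 3, 4, 5, 2, 4, 3, 0], [0, 0, -2, -4, -6, -8, -10, -5, -7, -4, 0]]

/-- the matrix A for the lattice number 10 -/
def rA10 : List (List ℤ) :=
    [[-1, 0, 0, 0, 0, 0, 0, 0, 0, 0, 0], [0, -1, 0, 0, 0, 0, 0, 0, 0, 0, 0],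
    [0, 0, -1, 0, 0, 0, 0, 0, 0, 0, 0], [0, 0, -2, -1, 0, 0, 0, 0, 0, 0, 0],
    [0, 0, -3, -2, -1, 0, 0, 0, 0, 0, 0], [0, 0, -4, -3, -2, -1, 0, 0, 0, 0, 0],
    [0, 0, 3, 2, 1, 0, 0, -1, 0, 0, 0], [0, 0, -4, -4, -4, -4, -2, -2, -1, 0, 0]]

/-- the matrix C for the lattice number 10 -/
def rC10 : List (List ℤ) :=
    [[0, 1, 0, 0, 0, 0, 0, 0, 0, 0, 0], [1, 0, 0, 0, 0, 0, 0, 0, 0, 0, 0],
    [0, 0, 0, 1, 0, 0, 0, 0, 0, 0, 0], [0, 0, 0, 0, 1, 0, 0, 0, 0, 0, 0],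
    [0, 0, 0, 0, 0, 1, 0, 0, 0, 0, 0], [0, 0, 0, 0, 0, 0, 1, 0, 0, 0, 0],
    [0, 0, 0, 0, 0, 0, 0, 0, 1, 0, 0], [0, 0, 0, 0, 0, 0, -1, 1, 2, 0, 0]]

/-- the matrix A for the lattice number 11 -/
def rA11 : List (List ℤ) :=
    [[-1, 0, 0, 0, 0, 0, 0, 0, 0, 0, 0], [0, -1, 0, 0, 0, 0, 0, 0, 0, 0, 0],
    [0, 0, -1, 0, 0, 0, 0, 0, 0, 0, 0], [0, 0, -2, -1, 0, 0, 0, 0, 0, 0, 0],
    [0, 0, -3, -2, -1, 0, 0, 0, 0, 0, 0], [0, 0, -4, -3, -2, -1, 0, 0, 0, 0, 0],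
    [0, 0, 0, 0, 0, 0, 0, -1, 0, 0, 0], [0, 0, 0, 0, 0, 0, 0, -2, -1, 0, 0]]

/-- the matrix C for the lattice number 11 -/
def rC11 : List (List ℤ) :=
    [[0, 1, 0, 0, 0, 0, 0, 0, 0, 0, 0], [1, 0, 0, 0, 0, 0, 0, 0, 0, 0, 0],
    [0, 0, 0, 1, 0, 0, 0, 0, 0, 0, 0], [0, 0, 0, 0, 1, 0, 0, 0, 0, 0, 0],
    [0, 0, 0, 0, 0, 1, 0, 0, 0, 0, 0], [0, 0, 1, 2, 3, 1, 3, 0, 0, 0, 0],
    [0, 0, 0, 0, 0, 0, 0, 0, 1, 0, 0], [0, 0, 0, 0, 0, 0, 0, 0, 0, 1, 0]]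

/-- the matrix A for the lattice number 12 -/
def rA12 : List (List ℤ) :=
    [[-1, 0, 0, 0, 0, 0, 0, 0, 0, 0, 0], [0, -1, 0, 0, 0, 0, 0, 0, 0, 0, 0],
    [0, 0, -1, 0, 0, 0, 0, 0, 0, 0, 0], [0, 0, -2, -1, 0, 0, 0, 0, 0, 0, 0],
    [0, 0, 0, 0, 0, 0, -1, 0, 0, 0, 0], [0, 0, 0, 0, 0, 0, -2, -1, 0, 0, 0]]

/-- the matrix C for the lattice number 12 -/
def rC12 : List (List ℤ) :=
    [[0, 1, 0, 0, 0, 0, 0, 0, 0, 0, 0], [1, 0, 0, 0, 0, 0, 0, 0, 0, 0, 0],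
    [0, 0, 0, 1, 0, 0, 0, 0, 0, 0, 0], [0, 0, 0, 0, 1, 0, 0, 0, 0, 0, 0],
    [0, 0, 0, 0, 0, 0, 0, 1, 0, 0, 0], [0, 0, 0, 0, 0, 0, 0, 0, 1, 0, 0]]

/-- module Q_RK: the rank of L modulo every prime is more than (n + 1) / 2 -/
theorem q_rk : Q_RK := by
  intro n L l hl hn hG
  simp only [reps, List.mem_cons, List.not_mem_nil, or_false] at hl
  rcases hl with rfl | rfl | rfl | rfl | rfl | rfl | rfl | rfl | rfl | rfl | rfl | rfl | rfl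
  · simp only [List.map_cons, List.map_nil, List.sum_cons, List.sum_nil, Ty.rk] at hn
    subst hn
    exact ⟨12, by norm_num, fun p _ => rk_ind rA0 rC0 hG (by decide +kernel) p⟩
  · simp only [List.map_cons, List.map_nil, List.sum_cons, List.sum_nil, Ty.rk] at hn
    subst hn
    exact ⟨12, by norm_num, fun p _ => rk_ind rA1 rC1 hG (by decide +kernel) p⟩
  · simp only [List.map_cons, List.map_nil, List.sum_cons, List.sum_nil, Ty.rk] at hn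
    subst hn
    exact ⟨10, by norm_num, fun p _ => rk_ind rA2 rC2 hG (by decide +kernel) p⟩
  · simp only [List.map_cons, List.map_nil, List.sum_cons, List.sum_nil, Ty.rk] at hn
    subst hn
    exact ⟨11, by norm_num, fun p _ => rk_ind rA3 rC3 hG (by decide +kernel) p⟩
  · simp only [List.map_cons, List.map_nil, List.sum_cons, List.sum_nil, Ty.rk] at hn
    subst hn
    exact ⟨10, by norm_num, fun p _ => rk_ind rA4 rC4 hG (by decide +kernel) p⟩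
  · simp only [List.map_cons, List.map_nil, List.sum_cons, List.sum_nil, Ty.rk] at hn
    subst hn
    exact ⟨10, by norm_num, fun p _ => rk_ind rA5 rC5 hG (by decide +kernel) p⟩
  · simp only [List.map_cons, List.map_nil, List.sum_cons, List.sum_nil, Ty.rk] at hn
    subst hn
    exact ⟨8, by norm_num, fun p _ => rk_ind rA6 rC6 hG (by decide +kernel) p⟩
  · simp only [List.map_cons, List.map_nil, List.sum_cons, List.sum_nil, Ty.rk] at hn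
    subst hn
    exact ⟨10, by norm_num, fun p _ => rk_ind rA7 rC7 hG (by decide +kernel) p⟩
  · simp only [List.map_cons, List.map_nil, List.sum_cons, List.sum_nil, Ty.rk] at hn
    subst hn
    exact ⟨10, by norm_num, fun p _ => rk_ind rA8 rC8 hG (by decide +kernel) p⟩
  · simp only [List.map_cons, List.map_nil, List.sum_cons, List.sum_nil, Ty.rk] at hn
    subst hn
    exact ⟨10, by norm_num, fun p _ => rk_ind rA9 rC9 hG (by decide +kernel) p⟩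
  · simp only [List.map_cons, List.map_nil, List.sum_cons, List.sum_nil, Ty.rk] at hn
    subst hn
    exact ⟨8, by norm_num, fun p _ => rk_ind rA10 rC10 hG (by decide +kernel) p⟩
  · simp only [List.map_cons, List.map_nil, List.sum_cons, List.sum_nil, Ty.rk] at hn
    subst hn
    exact ⟨8, by norm_num, fun p _ => rk_ind rA11 rC11 hG (by decide +kernel) p⟩
  · simp only [List.map_cons, List.map_nil, List.sum_cons, List.sum_nil, Ty.rk] at hn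
    subst hn
    exact ⟨6, by norm_num, fun p _ => rk_ind rA12 rC12 hG (by decide +kernel) p⟩

end Pool.Agent.CN3.H63

end
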