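import Pool.Agent.Helper2_CN3.Stmts

/-!
Squad CN3, module Q_SCL: the constant c
-/

noncomputable section

namespace Pool.Agent.CN3.H63

open Pool.Agent.H25Cong Pool.Agent.CON Pool.Agent.CN2

/-- the coefficients t with t • v in L -/
def coef {n : ℕ} (L : Submodule ℤ (V n)) (v : V n) : AddSubgroup ℝ where
  carrier := {t | t • v ∈ L}
  add_mem' := by
    intro s t hs ht
    change (s + t) • v ∈ L
    rw [add_smul]
    exact L.add_mem hs ht
  zero_mem' := by
    change (0 : ℝ) • v ∈ L
    rw [zero_smul]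
    exact L.zero_mem
  neg_mem' := by
    intro s hs
    change (-s) • v ∈ L
    rw [neg_smul]
    exact L.neg_mem hs

lemma mem_coef {n : ℕ} {L : Submodule ℤ (V n)} {v : V n} {t : ℝ} :
    t ∈ coef L v ↔ t • v ∈ L := Iff.rfl

/-- the products with a vector of norm 2 are coefficients -/
lemma prod_coef {n : ℕ} {L' : Submodule ℤ (V n)} {v : V n} (hv : B v v = 2)
    (hS : ∀ x ∈ L', S v x ∈ L') {x : V n} (hx : x ∈ L') : B x v ∈ coef L' v := by
  rw [mem_coef]
  have h1 := L'.sub_mem hx (hS x hx)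
  rw [S_apply, hv, sub_sub_cancel] at h1
  have e : 2 * B x v / 2 = B x v := by ring
  rwa [e] at h1

/-- one edge of the graph -/
lemma edge_coef {n : ℕ} {L' : Submodule ℤ (V n)} {v w : V n} (hw : B w w = 2)
    (hS : ∀ x ∈ L', S w x ∈ L') (h : B v w = 1 ∨ B v w = -1) {t : ℝ} (ht : t ∈ coef L' v) :
    t ∈ coef L' w := by
  have h1 := prod_coef hw hS (mem_coef.mp ht)
  rw [B_smul_left] at h1
  rcases h with h | h <;> rw [h] at h1
  · rwa [mul_one] at h1
  · rw [mul_neg, mul_one] at h1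
    have := (coef L' w).neg_mem h1
    rwa [neg_neg] at this

/-- module Q_SCL -/
theorem q_scl : Q_SCL := by
  intro n L L' r hn _ hL' hNB hS
  obtain ⟨hrL, hrs, hr2, hrt⟩ := hNB
  set J := coef L' (r 0) with hJ
  -- all the groups are equal
  have hall : ∀ i, i < n + 1 → ∀ t, t ∈ coef L' (r i) ↔ t ∈ J := by
    intro i
    induction i using Nat.strong_induction_on with
    | _ i ih =>
      intro hi t
      by_cases h0 : i = 0
      · rw [h0]
      · obtain ⟨j, hj, hB⟩ := hrt i hi (by omega)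
        rw [← ih j hj (by omega) t]
        have hB' : B (r j) (r i) = 1 ∨ B (r j) (r i) = -1 := by
          rwa [B_comm]
        exact ⟨edge_coef (hr2 j (by omega)) (hS j (by omega)) hB,
          edge_coef (hr2 i hi) (hS i hi) hB'⟩
  have hprod : ∀ i < n + 1, ∀ x ∈ L', B x (r i) ∈ J := fun i hi x hx =>
    (hall i hi _).mp (prod_coef (hr2 i hi) (hS i hi) hx)
  -- integrality
  have hint : ∀ s ∈ J, ∀ t ∈ J, ∃ k : ℤ, s * t = k := by
    intro s hs t ht
    obtain ⟨j, hj, hB⟩ := hrt 1 (by omega) (by omega)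
    have hj0 : j = 0 := by omega
    rw [hj0] at hB
    obtain ⟨k, hk⟩ := hL'.int _ (mem_coef.mp ((hall 1 (by omega) s).mpr hs)) _ (mem_coef.mp ht)
    rw [B_smul_left, B_smul_right] at hk
    rcases hB with hB | hB <;> rw [hB] at hk
    · exact ⟨k, by rw [← hk]; ring⟩
    · exact ⟨-k, by push_cast; rw [← hk]; ring⟩
  -- a nonzero element
  obtain ⟨t₀, ht₀, hne⟩ : ∃ t ∈ J, t ≠ 0 := by
    obtain ⟨b, hb⟩ := hL'.lat
    by_contra hcon
    push Not at hcon
    have h1 : ∀ i, B (b i) (r 0) = 0 := by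
      intro i
      apply hcon
      apply hprod 0 (by omega)
      rw [hb]
      exact Submodule.subset_span ⟨i, rfl⟩
    have h2 : B (r 0) (r 0) = 0 := by
      conv_lhs => rw [← b.sum_repr (r 0)]
      rw [B_sum_left]
      apply Finset.sum_eq_zero
      intro i _
      rw [B_smul_left]
      have h3 : B (b i) (∑ j, b.repr (r 0) j • b j) = 0 := by
        rw [b.sum_repr]
        exact h1 i
      rw [h3, mul_zero]
    rw [hr2 0 (by omega)] at h2
    norm_num at h2
  -- the group J is cyclic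
  set K : AddSubgroup ℤ :=
    { carrier := {k : ℤ | (k : ℝ) / t₀ ∈ J}
      add_mem' := by
        intro a b ha hb
        change ((a + b : ℤ) : ℝ) / t₀ ∈ J
        have e : ((a + b : ℤ) : ℝ) / t₀ = (a : ℝ) / t₀ + (b : ℝ) / t₀ := by
          push_cast
          ring
        rw [e]
        exact J.add_mem ha hb
      zero_mem' := by
        change ((0 : ℤ) : ℝ) / t₀ ∈ J
        rw [Int.cast_zero, zero_div]
        exact J.zero_mem
      neg_mem' := by
        intro a ha
        change ((-a : ℤ) : ℝ) / t₀ ∈ J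
        have e : ((-a : ℤ) : ℝ) / t₀ = -((a : ℝ) / t₀) := by
          push_cast
          ring
        rw [e]
        exact J.neg_mem ha } with hK
  have hKmem : ∀ k : ℤ, k ∈ K ↔ (k : ℝ) / t₀ ∈ J := fun k => Iff.rfl
  obtain ⟨k₀, hk₀⟩ := Int.subgroup_cyclic K
  have hk₀K : k₀ ∈ K := by
    rw [hk₀]
    exact AddSubgroup.subset_closure rfl
  have hgen : ∀ t ∈ J, ∃ m : ℤ, t = m * ((k₀ : ℝ) / t₀) := by
    intro t ht
    obtain ⟨k, hk⟩ := hint t ht t₀ ht₀
    have h1 : (k : ℝ) / t₀ = t := by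
      rw [← hk]
      field_simp
    have h2 : k ∈ K := by
      rw [hKmem, h1]
      exact ht
    rw [hk₀, AddSubgroup.mem_closure_singleton] at h2
    obtain ⟨m, hm⟩ := h2
    refine ⟨m, ?_⟩
    rw [← h1, ← hm]
    simp only [smul_eq_mul]
    push_cast
    ring
  have hk₀ne : (k₀ : ℝ) / t₀ ≠ 0 := by
    intro h
    obtain ⟨m, hm⟩ := hgen t₀ ht₀
    rw [h, mul_zero] at hm
    exact hne hm
  set c : ℝ := |(k₀ : ℝ) / t₀| with hc
  have hcpos : 0 < c := abs_pos.mpr hk₀ne
  have hcJ : c ∈ J := by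
    rcases abs_choice ((k₀ : ℝ) / t₀) with h | h <;> rw [hc, h]
    · exact hk₀K
    · exact J.neg_mem hk₀K
  have hcgen : ∀ t ∈ J, ∃ m : ℤ, t = c * m := by
    intro t ht
    obtain ⟨m, hm⟩ := hgen t ht
    rcases abs_choice ((k₀ : ℝ) / t₀) with h | h
    · refine ⟨m, ?_⟩
      rw [hc, h, hm]
      ring
    · refine ⟨-m, ?_⟩
      rw [hc, h, hm]
      push_cast
      ring
  obtain ⟨k, hk⟩ := hint c hcJ c hcJ
  have hkpos : 0 < k := by
    have : (0 : ℝ) < k := by
      rw [← hk]
      positivity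
    exact_mod_cast this
  refine ⟨c, k.toNat, hcpos, ?_, ?_, ?_⟩
  · have h1 : ((k.toNat : ℕ) : ℝ) = (k : ℝ) := by
      have : ((k.toNat : ℕ) : ℤ) = k := Int.toNat_of_nonneg hkpos.le
      exact_mod_cast this
    rw [h1, ← hk]
    ring
  · intro x hxL
    have hxc := hrs x hxL
    clear hxL
    induction hxc using AddSubgroup.closure_induction with
    | mem x hx =>
      obtain ⟨i, hi, rfl⟩ := hx
      exact mem_coef.mp ((hall i hi c).mpr hcJ)
    | zero =>
      rw [smul_zero]
      exact L'.zero_mem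
    | add x y _ _ hx hy =>
      rw [smul_add]
      exact L'.add_mem hx hy
    | neg x _ hx =>
      rw [smul_neg]
      exact L'.neg_mem hx
  · intro x hx y hyL
    have hyc := hrs y hyL
    clear hyL
    induction hyc using AddSubgroup.closure_induction with
    | mem y hy =>
      obtain ⟨i, hi, rfl⟩ := hy
      exact hcgen _ (hprod i hi x hx)
    | zero => exact ⟨0, by simp⟩
    | add y z _ _ hy hz =>
      obtain ⟨a, ha⟩ := hy
      obtain ⟨b, hb⟩ := hz
      exact ⟨a + b, by rw [B_add_right, ha, hb]; push_cast; ring⟩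
    | neg y _ hy =>
      obtain ⟨a, ha⟩ := hy
      exact ⟨-a, by rw [B_neg_right, ha]; push_cast; ring⟩

end Pool.Agent.CN3.H63

end
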